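import Pool.Agent.N388.EFW.Arb

/-! 11 general points of multiplicities `m` and `m + 1`. -/

set_option autoImplicit false

namespace Pool.Agent.N388.EFW

open Finset Pool.Agent.TH176.Nag Pool.Agent.H932R3
open Pool.Agent.TH864.SX (sq11)
open Pool.Agent.N388.EF (S_TEST2)

/-- **Eleven general points** of multiplicities `m` and `m + 1`. -/
theorem expDim_near11 (hT2 : S_TEST2) {m : ℕ} (hm : 20 ≤ m) (w : Fin 11 → ℕ)
    (hw : ∀ i, w i = m ∨ w i = m + 1) (hi : ∃ i, w i = m) :
    ∃ F : MvPolynomial (Fin 11 × Fin 2) ℚ, F ≠ 0 ∧ ∀ {L : Type} [Field L] [CharZero L]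
      (P : Fin 11 → Fin 2 → L),
      MvPolynomial.aeval (fun ij : Fin 11 × Fin 2 => P ij.1 ij.2) F ≠ 0 →
      ∀ (d s : ℕ) (e : ℝ), ∑ i, w i = 11 * m + s → e = (3 + √11) / 2 * (d - √11 * m) - s →
        ¬ (3 ∣ d ∧ √11 * (2 * d + 3) < 11 + 2 * (11 * m + s) ∧ 0 ≤ e ∧
          ((3 * √11 - 9) / 2 ≤ e ∨ 10 ≤ (10 + 3 * √11) * e + s)) →
        ExpDim L w P d := by
  obtain ⟨F, hF, hF'⟩ := expDim_arb11 hT2 w
  refine ⟨F, hF, fun P hP d s e hs he hd => hF' P hP d ?_⟩
  have hsq := sq11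
  have hs0 : 0 ≤ √(11 : ℝ) := Real.sqrt_nonneg _
  have hs3 : 3 < √(11 : ℝ) := by
    rw [Real.lt_sqrt (by norm_num)]; norm_num
  have hsR : (∑ i, (w i : ℝ)) = 11 * m + s := by exact_mod_cast hs
  rcases le_or_gt ((11 : ℝ) + 2 * (11 * m + s)) (√11 * (2 * d + 3)) with hX | hX
  · right; right
    refine ⟨m, fun i => ?_, ?_⟩
    · rcases hw i with h | h <;> omega
    · have h1 : ∑ i, ((max (w i) m : ℕ) : ℝ) = ∑ i, (w i : ℝ) := by
        apply sum_congr rfl
        intro i _
        congr 1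
        rcases hw i with h | h <;> omega
      rw [h1, hsR]
      exact hX
  by_cases hB : √11 * (d : ℝ) < ∑ i, (w i : ℝ)
  · exact Or.inr (Or.inl hB)
  left
  refine ⟨by rw [hsR]; exact hX, ?_⟩
  by_cases h3 : 3 ∣ d
  swap
  · exact Or.inl h3
  right
  -- `s ≤ 10`
  have hs10 : s ≤ 10 := by
    obtain ⟨i0, hi0⟩ := hi
    have h1 : ∑ i, w i < ∑ _i : Fin 11, (m + 1) := by
      apply sum_lt_sum
      · intro i _
        rcases hw i with h | h <;> omega
      · exact ⟨i0, mem_univ _, by omega⟩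
    rw [sum_const, card_univ, Fintype.card_fin, smul_eq_mul] at h1
    omega
  have hs10R : (s : ℝ) ≤ 10 := by exact_mod_cast hs10
  have hsn : (0 : ℝ) ≤ s := Nat.cast_nonneg s
  push Not at hB
  rw [hsR] at hB
  have hg : ⌊(d : ℝ) / √11⌋₊ = m := by
    rw [Nat.floor_eq_iff (by positivity)]
    constructor
    · rw [le_div_iff₀ (by linarith)]
      have h1 : √11 * ((m : ℝ) * √11) ≤ √11 * d := by
        have : √11 * ((m : ℝ) * √11) = 11 * m := by linear_combination (m : ℝ) * hsq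
        rw [this]
        linarith
      exact le_of_mul_le_mul_left h1 (by linarith)
    · rw [div_lt_iff₀ (by linarith)]
      have h1 : √11 * (d : ℝ) < √11 * (((m : ℝ) + 1) * √11) := by
        have : √11 * (((m : ℝ) + 1) * √11) = 11 * (m + 1) := by
          linear_combination ((m : ℝ) + 1) * hsq
        rw [this]
        linarith
      exact lt_of_mul_lt_mul_left h1 (by linarith)
  have hsum : ∑ i, (w i - m) = s := by
    have h1 : ∑ i, (w i - m) + ∑ _i : Fin 11, m = ∑ i, w i := by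
      rw [← sum_add_distrib]
      apply sum_congr rfl
      intro i _
      rcases hw i with h | h <;> omega
    rw [sum_const, card_univ, Fintype.card_fin, smul_eq_mul, hs] at h1
    omega
  have hdft : dft w d = e := by
    unfold dft
    rw [hg, hsum, he]
  unfold Crit
  rw [hdft, hg, hsum]
  by_contra hcon
  push Not at hcon
  obtain ⟨h1, h2⟩ := hcon
  apply hd
  refine ⟨h3, hX, h1, ?_⟩
  rcases le_or_gt ((3 * √11 - 9) / 2) e with h4 | h4
  · exact Or.inl h4
  · exact Or.inr (h2 (by omega) h4)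

end Pool.Agent.N388.EFW
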