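import Pool.Agent.N388.EFW.Block
import Pool.Agent.N388.EF.ROWS

/-! The data of a block exist as soon as `2 k ≤ m`. -/

set_option autoImplicit false

namespace Pool.Agent.N388.EFW

open Finset
open Pool.Agent.TH864.SX (Slp Blk)

theorem dat_of {M : ℕ} {K : ℝ} {m x j : ℕ} (sl : Slp M 2 K) (e0 : 0 ≤ ee K m x j)
    (e1 : ee K m x j < K - M) (e2 : ee K m x j * (2 * K + 1) + j < M + 1)
    (hm : 2 * kk K m x j ≤ m) (hexc : ¬ (M = 1 ∧ j = 1 ∧ m = 3 ∧ x = 6)) : Dat M K m x j := by
  have hK0 := sl.K0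
  have hMK := sl.hMK
  have hM1 : 1 ≤ M := sl.hM
  have hp1 : 0 < 2 * K + 1 := by linarith
  have heq : 2 * (K * (K - M)) = M := by
    have := sl.eq
    push_cast at this
    exact this
  obtain ⟨y, hy⟩ : ∃ y : ℝ, y = K - M := ⟨_, rfl⟩
  have hKy : K = M + y := by rw [hy]; ring
  have y0 : 0 < y := by rw [hy]; linarith
  have hy2 : y * (2 * K + 1) = K := by rw [hy]; linear_combination heq
  have y1 : y < 1 / 2 := by
    by_contra hcon
    push Not at hcon
    have := mul_le_mul_of_nonneg_right hcon hp1.le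
    linarith
  have hMR : (1 : ℝ) ≤ M := by exact_mod_cast hM1
  have y2 : 1 / 3 < y := by
    by_contra hcon
    push Not at hcon
    have := mul_le_mul_of_nonneg_right hcon hp1.le
    linarith
  refine ⟨sl, e0, e1, e2, hm, ?_⟩
  obtain ⟨e, he⟩ : ∃ e : ℝ, e = ee K m x j := ⟨_, rfl⟩
  obtain ⟨k, hk⟩ : ∃ k : ℕ, k = kk K m x j := ⟨_, rfl⟩
  rw [← hk] at hm ⊢
  rw [← he] at e0 e1 e2
  rw [← hy] at e1
  have hk1 : k = ⌊e * (2 * K + 1)⌋₊ + 1 := by rw [hk, he]; rfl
  have hkj : k + j ≤ M + 1 := by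
    have h1 : ((⌊e * (2 * K + 1)⌋₊ : ℕ) : ℝ) ≤ e * (2 * K + 1) :=
      Nat.floor_le (mul_nonneg e0 hp1.le)
    have h2 : ((⌊e * (2 * K + 1)⌋₊ + j : ℕ) : ℝ) < ((M + 1 : ℕ) : ℝ) := by push_cast; linarith
    have h3 : ⌊e * (2 * K + 1)⌋₊ + j < M + 1 := by exact_mod_cast h2
    omega
  have hKx : K * x = e + j + (K + 1) * m := by rw [he]; unfold ee; ring
  by_contra hcon
  push Not at hcon
  obtain ⟨Y, hY⟩ : ∃ Y, Y = x - m := ⟨_, rfl⟩
  rw [← hY] at hcon
  have hxm : x = m + Y := by omega
  have hYR : K * Y = e + j + m := by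
    rw [hxm] at hKx
    push_cast at hKx
    linarith
  obtain ⟨n, hn⟩ : ∃ n, m = 2 * k + n := ⟨m - 2 * k, by omega⟩
  have hYn : n + 2 ≤ Y := by omega
  obtain ⟨u, hu⟩ : ∃ u : ℤ, u = (j : ℤ) + 2 * k + n - M * Y := ⟨_, rfl⟩
  have hmR : (m : ℝ) = 2 * k + n := by exact_mod_cast hn
  have huR : (u : ℝ) = j + 2 * k + n - M * Y := by rw [hu]; push_cast; ring
  have heu : e = y * Y - u := by
    rw [huR]
    rw [hKy, hmR] at hYR
    linarith
  have hu1 : (u : ℝ) ≤ y * Y := by linarith
  have hu2 : y * ((Y : ℝ) - 1) < u := by linarith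
  have hint : u + (M : ℤ) * Y ≤ 2 * M + Y := by
    rw [hu]
    push_cast
    omega
  have hY2 : 2 ≤ Y := by omega
  have hu0 : 1 ≤ u := by
    have h1 : (0 : ℝ) < u := by
      have h2 : (2 : ℝ) ≤ Y := by exact_mod_cast hY2
      have h3 : 0 < y * ((Y : ℝ) - 1) := mul_pos y0 (by linarith)
      linarith
    have h2 : (0 : ℤ) < u := by exact_mod_cast h1
    omega
  have hek : e * (2 * K + 1) = K * (Y - 2 * u) - u := by
    rw [heu]
    linear_combination (Y : ℝ) * hy2
  rcases Nat.lt_or_ge Y 3 with h3 | h3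
  · have hY' : Y = 2 := by omega
    subst hY'
    have h4 : (1 : ℝ) ≤ u := by exact_mod_cast hu0
    push_cast at hu1
    linarith
  rcases Nat.lt_or_ge Y 4 with h4 | h4
  · have hY' : Y = 3 := by omega
    subst hY'
    have hu3 : u = 1 := by
      have h5 : (u : ℝ) < 2 := by push_cast at hu1; linarith
      have h6 : u < 2 := by exact_mod_cast h5
      omega
    rw [hu3] at hek hu
    push_cast at hek
    have hkM : k = M := by
      rw [hk1, hek]
      have h7 : ⌊K * (3 - 2 * 1) - 1⌋₊ = M - 1 := by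
        rw [Nat.floor_eq_iff (by linarith)]
        rw [Nat.cast_sub hM1]
        push_cast
        constructor <;> linarith
      rw [h7]
      omega
    push_cast at hu
    exact hexc (by
      subst hkM
      have h8 : j = 1 := by
        have : (k : ℤ) * 3 = 3 * k := by ring
        omega
      have h9 : k = 1 := by omega
      have h10 : (k : ℤ) * 3 = 3 * k := by ring
      refine ⟨h9, h8, ?_, ?_⟩ <;> omega)
  rcases Nat.lt_or_ge M 2 with hM2 | hM2
  · have hM' : M = 1 := by omega
    subst hM'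
    push_cast at *
    have y3 : y < 2 / 5 := by
      by_contra hcon'
      push Not at hcon'
      have h5 : 2 * ((1 + y) * y) = 1 := by
        rw [hKy] at heq
        linear_combination heq
      nlinarith
    have h5 : u ≤ 2 := by omega
    have hY6 : Y ≤ 6 := by
      have h6 : (u : ℝ) ≤ 2 := by exact_mod_cast h5
      have h8 : ¬ (7 ≤ Y) := by
        intro h9
        have h10 : (7 : ℝ) ≤ Y := by exact_mod_cast h9
        have h11 : 1 / 3 * ((Y : ℝ) - 1) < y * ((Y : ℝ) - 1) :=
          mul_lt_mul_of_pos_right y2 (by linarith)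
        linarith
      omega
    rcases (show Y = 4 ∨ Y = 5 ∨ Y = 6 by omega) with h6 | h6 | h6
    · subst h6
      push_cast at hu1 hu2
      have h7 : (1 : ℝ) < u := by linarith
      have h8 : (u : ℝ) < 2 := by linarith
      have h9 : (1 : ℤ) < u := by exact_mod_cast h7
      have h10 : u < (2 : ℤ) := by exact_mod_cast h8
      omega
    · subst h6
      push_cast at hu1 hu2
      have h7 : (1 : ℝ) < u := by linarith
      have h8 : (u : ℝ) < 2 := by linarith
      have h9 : (1 : ℤ) < u := by exact_mod_cast h7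
      have h10 : u < (2 : ℤ) := by exact_mod_cast h8
      omega
    · subst h6
      push_cast at hu1 hu2
      have h7 : (1 : ℝ) < u := by linarith
      have h9 : (1 : ℤ) < u := by exact_mod_cast h7
      have h10 : u = 2 := by omega
      rw [h10] at hek hu
      push_cast at hek
      have hk2 : k = 1 := by
        rw [hk1, hek]
        have h11 : ⌊K * (6 - 2 * 2) - 2⌋₊ = 0 := by
          rw [Nat.floor_eq_zero]
          linarith
        rw [h11]
      omega
  · exfalso
    have h5 : (2 : ℤ) ≤ M := by exact_mod_cast hM2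
    have h6 : (4 : ℤ) ≤ Y := by exact_mod_cast h4
    have h7 : ((M : ℤ) - 1) * 4 ≤ ((M : ℤ) - 1) * Y := mul_le_mul_of_nonneg_left h6 (by omega)
    have h8 : ((M : ℤ) - 1) * Y = M * Y - Y := by ring
    rw [h8] at h7
    linarith

end Pool.Agent.N388.EFW
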