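import Pool.Agent.N388.EFW.Final
import Pool.Agent.TH759.EV.Arb

/-! 11 general points, arbitrary multiplicities, degrees divisible by three. -/

set_option autoImplicit false

namespace Pool.Agent.N388.EFW

open Finset Pool.Agent.TH176.Nag Pool.Agent.TH603.Sur Pool.Agent.TH603.Cut Pool.Agent.TH641.NW
  Pool.Agent.H932R3
open Pool.Agent.TH864.SX (Slp Blk Fa Fb K11 num11 sq11 K11_lt)
open Pool.Agent.N388.EF (S_TEST2 t_POS2 Emp_TZ9')

/-- the data for multiplicities at least `m ≥ 20`, eleven points -/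
theorem Dat.arb {K : ℝ} {m x j : ℕ} (sl : Slp 9 2 K) (e0 : 0 ≤ ee K m x j)
    (e1 : ee K m x j < K - 9) (e2 : ee K m x j * (2 * K + 1) + j < 10) (hm : 20 ≤ m) :
    Dat 9 K m x j := by
  have hK0 := sl.K0
  have hMK : (9 : ℝ) < K := by have := sl.hMK; push_cast at this; exact this
  have hp1 : 0 < 2 * K + 1 := by linarith
  have heq : 2 * (K * (K - 9)) = 9 := by
    have := sl.eq
    push_cast at this
    exact this
  have hKM : K < 19 / 2 := by
    by_contra hcon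
    push Not at hcon
    nlinarith
  have hkj : kk K m x j + j ≤ 10 := by
    unfold kk
    have h2 := Nat.floor_le (mul_nonneg e0 hp1.le)
    have h4 : ((⌊ee K m x j * (2 * K + 1)⌋₊ + j : ℕ) : ℝ) < ((10 : ℕ) : ℝ) := by
      push_cast
      linarith
    have h5 : ⌊ee K m x j * (2 * K + 1)⌋₊ + j < 10 := by exact_mod_cast h4
    omega
  rcases Nat.eq_zero_or_pos j with hj | hj
  · subst hj
    exact Dat.uni (by norm_num) sl e0 (by push_cast; exact e1) (by omega)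
  refine ⟨sl, e0, by push_cast; exact e1, by push_cast; linarith, by omega, ?_⟩
  have hKx : K * x = ee K m x j + j + (K + 1) * m := by unfold ee; ring
  have hm0R : (20 : ℝ) ≤ m := by exact_mod_cast hm
  have hjR : (1 : ℝ) ≤ j := by exact_mod_cast hj
  have hxm : m < x := by
    have h6 : K * (m : ℝ) < K * x := by rw [hKx]; nlinarith
    have h7 := lt_of_mul_lt_mul_left h6 hK0.le
    exact_mod_cast h7
  have hYR : K * ((x - m : ℕ) : ℝ) = ee K m x j + j + m := by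
    rw [Nat.cast_sub hxm.le]
    linarith
  by_contra hcon
  have h1 : m + 2 ≤ (x - m) + 2 * kk K m x j := by omega
  have h2 : (m : ℝ) + 2 ≤ ((x - m : ℕ) : ℝ) + 2 * kk K m x j := by exact_mod_cast h1
  have h3 : (kk K m x j : ℝ) + j ≤ 10 := by exact_mod_cast hkj
  have h4 : K * ((m : ℝ) + 2) ≤ K * (((x - m : ℕ) : ℝ) + 2 * kk K m x j) :=
    mul_le_mul_of_nonneg_left h2 hK0.le
  rw [mul_add, mul_add, hYR] at h4
  -- `K m + 2 K ≤ e + j + m + 2 K k`, `k ≤ 10 - j`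
  have h5 : K * (2 * (kk K m x j : ℝ)) ≤ K * (2 * (10 - j)) :=
    mul_le_mul_of_nonneg_left (by linarith) hK0.le
  have h6 : K * (2 * (10 - (j : ℝ))) = 20 * K - 2 * (K * j) := by ring
  have h7 : K * 1 ≤ K * (j : ℝ) := mul_le_mul_of_nonneg_left hjR hK0.le
  have h8 : (j : ℝ) ≤ 10 := by
    have : (0 : ℝ) ≤ kk K m x j := Nat.cast_nonneg _
    linarith
  have h9 : (K - 1) * 20 ≤ (K - 1) * m := mul_le_mul_of_nonneg_left hm0R (by linarith)
  nlinarith

/-- **emptiness at eleven points** in the degrees divisible by three -/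
theorem Emp_arb11 (hT2 : S_TEST2) {w : Fin 11 → ℕ} {d : ℕ} (h3 : 3 ∣ d)
    (hX : √11 * (2 * d + 3) < 11 + 2 * ((∑ i, w i : ℕ) : ℝ)) {g s : ℕ} {e : ℝ}
    (hg : g = ⌊(d : ℝ) / √11⌋₊) (hs : s = ∑ i, (w i - g))
    (he : e = (3 + √11) / 2 * (d - √11 * g) - s)
    (hc : e < 0 ∨ (19 < g ∧ e < (3 * √11 - 9) / 2 ∧ (10 + 3 * √11) * e + s < 10)) :
    Emp w (TZ d) := by
  have hsq := sq11
  have hs0 : 0 ≤ √(11 : ℝ) := Real.sqrt_nonneg _
  have hs3 : 3 < √(11 : ℝ) := by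
    rw [Real.lt_sqrt (by norm_num)]; norm_num
  rcases lt_or_ge e 0 with h0 | h0
  · refine Pool.Agent.TH759.EV.Emp_arb num11 K11_lt (Fintype.card_fin 11) (by
      push_cast at hX ⊢; exact hX) ?_
    push_cast
    rw [← hg]
    have h1 : K11 / 3 = (3 + √11) / 2 := by unfold K11; ring
    rw [h1]
    have h2 : (∑ i, ((w i - g : ℕ) : ℝ)) = s := by rw [hs]; push_cast; rfl
    rw [h2]
    linarith
  rcases hc with hc | ⟨hg20, hc1, hc2⟩
  · linarith
  obtain ⟨x, rfl⟩ := h3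
  push_cast at he hX hg
  -- all multiplicities are at least `g`
  obtain ⟨s', hs'⟩ : ∃ s', s' = ∑ i, (g - w i) := ⟨_, rfl⟩
  have hsum : ∑ i, w i + s' = 11 * g + s := by
    have h1 : ∑ i, (w i + (g - w i)) = ∑ i, (g + (w i - g)) := by
      apply sum_congr rfl
      intro i _
      omega
    rw [sum_add_distrib, sum_add_distrib, ← hs', ← hs, sum_const, card_univ, Fintype.card_fin,
      smul_eq_mul] at h1
    exact h1
  have hsumR : (∑ i, (w i : ℝ)) + s' = 11 * g + s := by exact_mod_cast hsum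
  have hs'0 : s' = 0 := by
    by_contra hne
    have h1 : (1 : ℝ) ≤ s' := by
      have : 1 ≤ s' := Nat.one_le_iff_ne_zero.2 hne
      exact_mod_cast this
    have h2 : (11 : ℝ) * g = √11 * (√11 * g) := by rw [← mul_assoc, hsq]
    have h3 : √11 * (2 * (3 * (x : ℝ) - √11 * g) + 3) < 11 + 2 * (s - s') := by linarith
    have h4 : (0 : ℝ) ≤ s := Nat.cast_nonneg s
    -- `δ = 3 x - √11 g`, `(3 + √11) / 2 * δ = e + s`
    obtain ⟨δ, hδ⟩ : ∃ δ : ℝ, δ = 3 * (x : ℝ) - √11 * g := ⟨_, rfl⟩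
    rw [← hδ] at h3 he
    have h5 : (3 + √11) * δ = 2 * e + 2 * s := by linarith
    have h6 : (3 + √11) * (√11 * (2 * δ + 3)) < (3 + √11) * (11 + 2 * (s - s')) :=
      mul_lt_mul_of_pos_left h3 (by linarith)
    have h7 : (3 + √11) * (√11 * (2 * δ + 3)) = √11 * (2 * (2 * e + 2 * s)) + 9 * √11 + 33 := by
      rw [← h5]
      linear_combination 3 * hsq
    rw [h7] at h6
    nlinarith
  have hw : ∀ i, g ≤ w i := by
    intro i
    have h1 : ∑ i, (g - w i) = 0 := by rw [← hs']; exact hs'0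
    have h2 := (sum_eq_zero_iff.1 h1) i (mem_univ i)
    omega
  have hwsum : ∑ i, w i = (9 + 2) * g + s := by omega
  have hK9 : (9 : ℝ) < K11 := by have := num11.sl.hMK; push_cast at this; exact this
  have hsl : Slp 9 2 K11 := num11.sl
  have e1 : ee K11 g x s = e := by
    rw [he]
    unfold ee K11
    linear_combination ((g : ℝ) / 2) * hsq
  have hdat : Dat 9 K11 g x s := by
    refine Dat.arb hsl (by rw [e1]; exact h0) ?_ ?_ (by omega)
    · rw [e1]
      unfold K11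
      linarith
    · rw [e1]
      have : 2 * K11 + 1 = 10 + 3 * √11 := by unfold K11; ring
      rw [this]
      linarith
  exact Emp_TZ9' hK9 K11_lt (hdat.emp hT2 t_POS2 hw hwsum)

/-- the defect of the multiplicities `w` in the degree `d` -/
noncomputable def dft (w : Fin 11 → ℕ) (d : ℕ) : ℝ :=
  (3 + √11) / 2 * (d - √11 * (⌊(d : ℝ) / √11⌋₊ : ℕ)) - ((∑ i, (w i - ⌊(d : ℝ) / √11⌋₊) : ℕ) : ℝ)

/-- the condition on the defect -/
def Crit (w : Fin 11 → ℕ) (d : ℕ) : Prop :=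
  dft w d < 0 ∨ (19 < ⌊(d : ℝ) / √11⌋₊ ∧ dft w d < (3 * √11 - 9) / 2 ∧
    (10 + 3 * √11) * dft w d + ((∑ i, (w i - ⌊(d : ℝ) / √11⌋₊) : ℕ) : ℝ) < 10)

/-- **Eleven general points**, arbitrary multiplicities. -/
theorem expDim_arb11 (hT2 : S_TEST2) (w : Fin 11 → ℕ) :
    ∃ F : MvPolynomial (Fin 11 × Fin 2) ℚ, F ≠ 0 ∧ ∀ {L : Type} [Field L] [CharZero L]
      (P : Fin 11 → Fin 2 → L),
      MvPolynomial.aeval (fun ij : Fin 11 × Fin 2 => P ij.1 ij.2) F ≠ 0 →
      ∀ d : ℕ, ((√11 * (2 * d + 3) < 11 + 2 * ∑ i, (w i : ℝ) ∧ (¬ 3 ∣ d ∨ Crit w d)) ∨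
          √11 * d < ∑ i, (w i : ℝ) ∨
          ∃ b : ℕ, (∀ i, w i ≤ b + 1) ∧
            11 + 2 * ∑ i, ((max (w i) b : ℕ) : ℝ) ≤ √11 * (2 * d + 3)) →
        ExpDim L w P d := by
  refine Pool.Agent.TH864.SX.expDim_of_or' fun d hd => ?_
  have hpar : Pool.Agent.TH759.EV.Par 2 1 (Pool.Agent.TH759.EV.LL 11)
      (√((11 : ℕ) : ℝ) * Pool.Agent.TH759.EV.LL 11) 11 :=
    Pool.Agent.TH759.EV.par_of (by norm_num) (by norm_num) (by norm_num) (by norm_num) (by norm_num)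
  rcases hd with ⟨hX, hd⟩ | hd | ⟨b, hb, hd⟩
  · left
    by_cases h3 : 3 ∣ d
    · rcases hd with hd | hd
      · exact absurd h3 hd
      · exact Emp_arb11 hT2 h3 (by push_cast; exact hX) rfl rfl rfl hd
    · exact Pool.Agent.TH759.EV.Emp_pl hpar (Fintype.card_fin 11) h3 (by push_cast; exact hX)
  · left
    refine Pool.Agent.TH603.EL.Emp_plane (ι := Fin 11) (w := w) (d := d) ?_ ?_
    · rw [Fintype.card_fin]; norm_num
    · rw [Fintype.card_fin]; push_cast; exact hd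
  · right
    exact Pool.Agent.TH759.EV.Sur_pl hpar (Fintype.card_fin 11) hb (by
      push_cast at hd ⊢
      exact hd)

end Pool.Agent.N388.EFW
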