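import Pool.Agent.N388.EFW.Rels
import Pool.Agent.N388.EF.Stm2
import Pool.Agent.N388.EF.VALw
import Pool.Agent.N388.EF.PSI
import Pool.Agent.N388.EF.SPAN
import Pool.Agent.N388.EF.PEEL
import Pool.Agent.N388.EF.POS
import Pool.Agent.N388.EF.TEST

/-! The emptiness of the block with `M + 2` points of multiplicities at least `m`. -/

set_option autoImplicit false

namespace Pool.Agent.N388.EFW

open Finset Polynomial Pool.Agent.TH176.Nag
open Pool.Agent.TH864.SX (Slp Blk)
open Pool.Agent.N388.EF (Pn t_PSI t_SPAN t_PEEL t_TEST t_POS wt S_TEST2 S_POS2)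

variable {M : ℕ} {K : ℝ} {m x j : ℕ}

/-- the polynomial of a column -/
noncomputable def colP (M : ℕ) (K : ℝ) (x : ℕ) (c : ℕ × ℕ → ℚ) (t : ℕ) : ℚ[X] :=
  ∑ j ∈ range (x + 1), monomial j (cc M K x c (t, j))

theorem colP_coeff {c : ℕ × ℕ → ℚ} {t j : ℕ} : (colP M K x c t).coeff j = cc M K x c (t, j) := by
  unfold colP
  rw [finsetSum_coeff]
  simp only [coeff_monomial]
  rw [sum_ite_eq']
  split_ifs with h
  · rfl
  · rw [mem_range] at h
    symm
    apply cc_out
    intro h1
    rw [mem_SS] at h1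
    have := h1.1.2
    simp only at this
    omega

theorem sum_cut {hi x : ℕ} (hx : hi ≤ x) (F : ℕ → ℚ) (hF : ∀ j, hi < j → F j = 0) :
    ∑ j ∈ range (hi + 1), F j = ∑ j ∈ range (x + 1), F j := by
  apply sum_subset
  · intro j hj
    rw [mem_range] at hj ⊢
    omega
  · intro j _ hj
    rw [mem_range] at hj
    exact hF j (by omega)

namespace Dat

/-- the quotient of a column -/
theorem quot (h : Dat M K m x j) (c : ℕ × ℕ → ℚ)
    (hc : ∀ κ ≤ m, ∀ D : ℤ, 1 ≤ D → EF.Rel (SS M K x) c κ D) (t : ℕ) :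
    ∃ g : ℚ[X], colP M K x c t = (X - 1) ^ t * g ∧ (∀ l, g.coeff l ≠ 0 → (t, l) ∈ FF K m x) ∧
      ∀ n, AA M K x c t (t + n) = ∑ l ∈ range (x + 1), g.coeff l * ((l.choose n : ℕ) : ℚ) := by
  have hK := h.K0
  have hKM : 0 < K - M := by linarith [h.MK]
  have htK : (0 : ℝ) ≤ t / K := by positivity
  obtain ⟨lo, hlo⟩ : ∃ lo : ℕ, lo = ⌈(x : ℝ) - t / (K - M)⌉₊ := ⟨_, rfl⟩
  obtain ⟨hi, hhi⟩ : ∃ hi : ℕ, hi = ⌊(x : ℝ) - t / K⌋₊ := ⟨_, rfl⟩
  have hix : hi ≤ x := by
    rw [hhi]
    apply Nat.floor_le_of_le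
    linarith
  have hcut : ∀ (g : ℚ[X]) (n : ℕ), (∀ l, g.coeff l ≠ 0 → l ≤ hi) →
      ∑ j ∈ range (hi + 1), g.coeff j * ((j.choose n : ℕ) : ℚ) =
      ∑ j ∈ range (x + 1), g.coeff j * ((j.choose n : ℕ) : ℚ) := by
    intro g n hg
    apply sum_cut hix (fun j => g.coeff j * ((j.choose n : ℕ) : ℚ))
    intro j hj
    have : g.coeff j = 0 := by
      by_contra h1
      have := hg j h1
      omega
    simp only [this, zero_mul]
  have hsupp : ∀ j, (colP M K x c t).coeff j ≠ 0 → lo ≤ j ∧ j ≤ hi := by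
    intro j hj
    rw [colP_coeff] at hj
    have h1 : (t, j) ∈ SS M K x := by
      by_contra h2
      exact hj (cc_out h2)
    rw [mem_SS] at h1
    obtain ⟨-, h2, h3⟩ := h1
    simp only at h2 h3
    constructor
    · rw [hlo]
      apply Nat.ceil_le.2
      have h4 : (x : ℝ) - j ≤ t / (K - M) := by
        rw [le_div_iff₀ hKM, mul_comm]
        exact h2
      linarith
    · rw [hhi]
      apply Nat.le_floor
      have h4 : (t : ℝ) / K ≤ x - j := by
        rw [div_le_iff₀ hK, mul_comm]
        exact h3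
      linarith
  have hAA : ∀ s, ∑ j ∈ range (hi + 1), (colP M K x c t).coeff j * ((j.choose s : ℕ) : ℚ) =
      AA M K x c t s := by
    intro s
    rw [hcut _ s (fun l hl => (hsupp l hl).2)]
    unfold AA
    apply sum_congr rfl
    intro j _
    rw [colP_coeff]
  obtain ⟨g, hg1, hg2, hg3⟩ := t_PSI t lo hi (colP M K x c t) hsupp (by
    intro s hs
    rw [hAA]
    exact h.pos_rel c hc hs)
  refine ⟨g, hg1, ?_, ?_⟩
  · intro l hl
    obtain ⟨h1, h2⟩ := hg2 l hl
    have h3 : ((l : ℝ) + t) + t / K ≤ x := by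
      rcases Nat.eq_zero_or_pos (l + t) with h4 | h4
      · have h5 : l = 0 := by omega
        have h6 : t = 0 := by omega
        subst h5 h6
        simp
      · have h5 : l + t ≤ ⌊(x : ℝ) - t / K⌋₊ := by rw [← hhi]; exact h2
        rw [Nat.le_floor_iff' (by omega)] at h5
        push_cast at h5
        linarith
    apply h.mem_FF_of h3
    have h4 : (x : ℝ) - t / (K - M) ≤ l := by
      have h5 : (x : ℝ) - t / (K - M) ≤ lo := by
        rw [hlo]
        exact Nat.le_ceil _
      have h6 : (lo : ℝ) ≤ l := by exact_mod_cast h1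
      linarith
    have h5 : (t : ℝ) / (K - M) = 2 * t + t / K := by
      rw [div_eq_iff hKM.ne']
      have h6 := h.eqK
      have h7 : (2 * (t : ℝ) + t / K) * (K - M) = t * ((K - M) * (2 * K + 1)) / K := by
        field_simp
      rw [h7, h6]
      field_simp
    rw [h5] at h4
    linarith
  · intro n
    rw [← hAA, hg3 n]
    exact hcut g n (fun l hl => by have := (hg2 l hl).2; omega)

/-- the reduced relations -/
theorem red (h : Dat M K m x j) (c : ℕ × ℕ → ℚ) (g : ℕ → ℚ[X])
    (hg2 : ∀ t l, (g t).coeff l ≠ 0 → (t, l) ∈ FF K m x)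
    (hg3 : ∀ t n, AA M K x c t (t + n) = ∑ l ∈ range (x + 1), (g t).coeff l * ((l.choose n : ℕ) : ℚ))
    (n κ : ℕ) (hc : EF.Rel (SS M K x) c κ (-(n : ℤ))) :
    ∑ q ∈ FF K m x, (g q.1).coeff q.2 * (((q.1 + n).choose κ : ℕ) : ℚ) *
      ((q.2.choose n : ℕ) : ℚ) = 0 := by
  classical
  have h1 := neg_rel c κ n hc
  have hsub : FF K m x ⊆ range (⌊K * x⌋₊ + 1) ×ˢ range (x + 1) := by
    intro q hq
    rw [mem_FF] at hq
    rw [mem_product, mem_range, mem_range]
    refine ⟨?_, by have := hq.1.2; omega⟩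
    have h2 : m ≤ ⌊K * x⌋₊ := by
      apply Nat.le_floor
      rw [h.Kx]
      have h3 := h.e0
      have h4 := h.K0
      have h5 : (0 : ℝ) ≤ m := Nat.cast_nonneg m
      have h6 : (0 : ℝ) ≤ j := Nat.cast_nonneg j
      nlinarith
    have := hq.1.1
    omega
  rw [sum_subset hsub]
  · rw [sum_product, ← h1]
    apply sum_congr rfl
    intro t _
    rw [hg3 t n, sum_mul]
    apply sum_congr rfl
    intro l _
    ring
  · intro q _ hq
    have h2 : (g q.1).coeff q.2 = 0 := by
      by_contra h3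
      exact hq (hg2 _ _ h3)
    rw [h2, zero_mul, zero_mul]

/-- the whole linear system is solved, from a test polynomial -/
theorem solve (h : Dat M K m x j) (G : ℕ → ℚ[X]) (hG0 : (G 0).degree < ((1 : ℕ) : WithBot ℕ))
    (hG1 : ∀ b, 1 ≤ b → b ≤ kk K m x j → (G b).degree < ((2 * b : ℕ) : WithBot ℕ))
    (hG2 : ∀ t l, 1 ≤ t → t ≤ kk K m x j → (t, l) ∈ FF K m x →
      ∑ b ∈ range (kk K m x j + 1), (G b).eval (t : ℚ) *
        (Pn (kk K m x j - b)).eval ((x : ℚ) - t - l) = 0)
    (hG3 : ∀ s i : ℕ, s < kk K m x j → i ≤ s → ∑ b ∈ range (kk K m x j + 1),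
      (G b).eval ((m : ℚ) - s) * (Pn (kk K m x j - b)).eval (((x - m : ℕ) : ℚ) + i) = 0)
    (hG4 : ∑ b ∈ range (kk K m x j + 1), (G b).eval 0 * (Pn (kk K m x j - b)).eval 0 ≠ 0)
    (b : ℕ × ℕ → ℚ)
    (hb : ∀ n, ∀ κ < NN K m x j n, ∑ q ∈ FF K m x, b q * (((q.1 + n).choose κ : ℕ) : ℚ) *
      ((q.2.choose n : ℕ) : ℚ) = 0) : ∀ q ∈ FF K m x, b q = 0 := by
  classical
  have hspan := t_SPAN (FF K m x) b (x : ℚ) (NN K m x j) h.NN_anti hb
  -- the apex
  have hmx := h.xm
  have hkm := h.hm
  have hk1 := h.k1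
  obtain ⟨DD, hDD⟩ : ∃ DD : ℚ[X], DD = ∏ τ ∈ Icc (kk K m x j + 1) (m - kk K m x j), (X - C (τ : ℚ)) :=
    ⟨_, rfl⟩
  have hDdeg : DD.degree = ((m - 2 * kk K m x j : ℕ) : WithBot ℕ) := by
    rw [hDD, degree_prod]
    simp only [degree_X_sub_C]
    rw [sum_const, Nat.card_Icc, nsmul_one]
    congr 1
    omega
  obtain ⟨W, hW⟩ : ∃ W : ℕ × ℕ → ℚ, W = fun q => ∑ b ∈ range (kk K m x j + 1),
      (G b).eval (q.1 : ℚ) * (Pn (kk K m x j - b)).eval ((x : ℚ) - q.1 - q.2) := ⟨_, rfl⟩
  have hPn : ∀ n, (Pn n).natDegree ≤ n := by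
    intro n
    unfold Pn
    refine (natDegree_prod_le _ _).trans ?_
    simp only [natDegree_X_sub_C]
    simp
  have hsum : ∑ q ∈ FF K m x, b q * DD.eval (q.1 : ℚ) * W q = 0 := by
    have h1 : ∀ a ∈ range (kk K m x j + 1), ∑ q ∈ FF K m x, b q * (DD * G a).eval (q.1 : ℚ) *
        (Pn (kk K m x j - a)).eval ((x : ℚ) - q.1 - q.2) = 0 := by
      intro a ha
      rw [mem_range] at ha
      apply hspan (kk K m x j - a)
      · rw [degree_mul, hDdeg]
        rcases Nat.eq_zero_or_pos a with h2 | h2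
        · subst h2
          rw [Nat.sub_zero]
          have h3 : (G 0).degree ≤ 0 := by
            have h4 := hG0
            rw [Nat.cast_one] at h4
            exact Nat.WithBot.lt_one_iff_le_zero.1 h4
          have h5 := h.NN_k
          calc ((m - 2 * kk K m x j : ℕ) : WithBot ℕ) + (G 0).degree
              ≤ ((m - 2 * kk K m x j : ℕ) : WithBot ℕ) + 0 := by gcongr
            _ = ((m - 2 * kk K m x j : ℕ) : WithBot ℕ) := by rw [add_zero]
            _ < ((NN K m x j (kk K m x j) : ℕ) : WithBot ℕ) := by exact_mod_cast h5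
        · have h3 := h.NN_low h2 (by omega)
          have h4 := hG1 a h2 (by omega)
          calc ((m - 2 * kk K m x j : ℕ) : WithBot ℕ) + (G a).degree
              < ((m - 2 * kk K m x j : ℕ) : WithBot ℕ) + ((2 * a : ℕ) : WithBot ℕ) := by
                apply WithBot.add_lt_add_left
                · exact WithBot.coe_ne_bot
                · exact h4
            _ = ((m - 2 * kk K m x j + 2 * a : ℕ) : WithBot ℕ) := by push_cast; rfl
            _ ≤ ((NN K m x j (kk K m x j - a) : ℕ) : WithBot ℕ) := by exact_mod_cast h3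
      · exact hPn _
    have h2 : ∑ a ∈ range (kk K m x j + 1), ∑ q ∈ FF K m x, b q * (DD * G a).eval (q.1 : ℚ) *
        (Pn (kk K m x j - a)).eval ((x : ℚ) - q.1 - q.2) = 0 := sum_eq_zero h1
    rw [sum_comm] at h2
    rw [← h2]
    apply sum_congr rfl
    intro q _
    rw [hW]
    simp only
    rw [mul_sum]
    apply sum_congr rfl
    intro a _
    rw [eval_mul]
    ring
  have hapex : b (0, x) = 0 := by
    have hin : ((0, x) : ℕ × ℕ) ∈ FF K m x := by
      apply h.mem_FF_of <;> simp
    rw [sum_eq_single (0, x)] at hsum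
    · have h1 : DD.eval (((0 : ℕ) : ℚ)) ≠ 0 := by
        rw [hDD, eval_prod, prod_ne_zero_iff]
        intro τ hτ
        rw [mem_Icc] at hτ
        simp only [eval_sub, eval_X, eval_C]
        have : (τ : ℚ) ≠ 0 := by
          have : τ ≠ 0 := by omega
          exact_mod_cast this
        simpa using this
      have h2 : W (0, x) ≠ 0 := by
        rw [hW]
        simpa using hG4
      simp only at hsum
      rcases mul_eq_zero.1 hsum with h3 | h3
      · rcases mul_eq_zero.1 h3 with h4 | h4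
        · exact h4
        · exact absurd h4 h1
      · exact absurd h3 h2
    · rintro ⟨t, l⟩ hq hne
      rcases Nat.eq_zero_or_pos t with h1 | h1
      · subst h1
        have := FF_zero hq
        subst this
        exact absurd rfl hne
      · rcases Nat.lt_or_ge (kk K m x j) t with h2 | h2
        · rcases Nat.lt_or_ge (m - kk K m x j) t with h3 | h3
          · -- right end
            have h4 : t ≤ m := by
              rw [mem_FF] at hq
              exact hq.1.1
            obtain ⟨s, rfl⟩ : ∃ s, t = m - s := ⟨m - t, by omega⟩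
            have hs : s < kk K m x j := by omega
            have h5 := h.FF_right hs hq
            have h6 : W (m - s, l) = 0 := by
              rw [hW]
              have h7 := hG3 s (x - (m - s) - l - (x - m)) hs (by omega)
              have e1 : ((x - (m - s) - l - (x - m) : ℕ) : ℚ) =
                  (x : ℚ) - ((m - s : ℕ) : ℚ) - l - ((x - m : ℕ) : ℚ) := by
                rw [Nat.cast_sub (by omega), Nat.cast_sub (by omega), Nat.cast_sub (by omega)]
              have e2 : ((m - s : ℕ) : ℚ) = (m : ℚ) - s := by rw [Nat.cast_sub (by omega)]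
              simp only
              rw [← h7]
              apply sum_congr rfl
              intro a _
              rw [e1, e2]
              congr 2
              ring
            rw [h6, mul_zero]
          · -- middle
            have h4 : DD.eval (((t : ℕ) : ℚ)) = 0 := by
              rw [hDD, eval_prod]
              apply prod_eq_zero (mem_Icc.2 ⟨h2, h3⟩)
              simp
            simp only
            rw [h4, mul_zero, zero_mul]
        · -- left end
          have h6 : W (t, l) = 0 := by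
            rw [hW]
            exact hG2 t l h1 h2 hq
          rw [h6, mul_zero]
    · intro h1
      exact absurd hin h1
  -- the rest
  have hrest := t_PEEL (F1 K m x) b (fun q => (x : ℚ) - q.1 - q.2) (NN K m x j) (by
      rintro ⟨t, l⟩ - ⟨t', l'⟩ - h1 h2
      simp only at h1 h2
      subst h1
      have h3 : (l : ℚ) = l' := by linarith
      have h4 : l = l' := by exact_mod_cast h3
      rw [h4]) (fun c => by convert h.count c) (by
      intro c p hp
      have h1 := hspan c p (X ^ c) hp (by rw [natDegree_X_pow])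
      have h2 : ∑ q ∈ F1 K m x, b q * p.eval (q.1 : ℚ) * ((x : ℚ) - q.1 - q.2) ^ c =
          ∑ q ∈ FF K m x, b q * p.eval (q.1 : ℚ) * (X ^ c : ℚ[X]).eval ((x : ℚ) - q.1 - q.2) := by
        unfold F1
        rw [sum_erase]
        · apply sum_congr rfl
          intro q _
          rw [eval_pow, eval_X]
        · rw [hapex, zero_mul, zero_mul]
      rw [h2]
      exact h1)
  intro q hq
  by_cases h1 : q = (0, x)
  · rw [h1]
    exact hapex
  · exact hrest q (mem_F1.2 ⟨h1, hq⟩)

/-- the whole linear system is solved -/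
theorem solve' (h : Dat M K m x j) (hT2 : S_TEST2) (hP2 : S_POS2) (b : ℕ × ℕ → ℚ)
    (hb : ∀ n, ∀ κ < NN K m x j n, ∑ q ∈ FF K m x, b q * (((q.1 + n).choose κ : ℕ) : ℚ) *
      ((q.2.choose n : ℕ) : ℚ) = 0) : ∀ q ∈ FF K m x, b q = 0 := by
  have hkM := h.kM
  rcases Nat.lt_or_ge M (kk K m x j) with hk | hk
  · -- the index `M + 1`
    have hk1 : kk K m x j = M + 1 := by omega
    have hj : j = 0 := by omega
    subst hj
    have hM := h.M0
    obtain ⟨G, hG0, hG1, hG2, hG2', hG3, hG4⟩ := hT2 (kk K m x 0) m (x - m) (by omega) h.hm h.Y1 h.hY (by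
      have hp := hP2 (kk K m x 0) (m - 2 * kk K m x 0) (x - m) (by omega) h.Y1 (by
        have := h.hY
        have := h.hm
        omega)
      have hYR := h.YR
      have h1 := h.e1
      have h2 := h.e0
      have hKM := h.KM
      have hY1 : (1 : ℝ) ≤ ((x - m : ℕ) : ℝ) := by exact_mod_cast h.Y1
      have hMK := h.MK
      -- `0 < m - M Y < Y`
      have h3 : (M : ℝ) * ((x - m : ℕ) : ℝ) < m := by
        push_cast at hYR
        nlinarith
      have h4 : (m : ℝ) < M * ((x - m : ℕ) : ℝ) + ((x - m : ℕ) : ℝ) := by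
        push_cast at hYR
        nlinarith
      have h5 : M * (x - m) < m := by exact_mod_cast h3
      have h6 : m < M * (x - m) + (x - m) := by exact_mod_cast h4
      have h7 : (M : ℚ) * ((x - m : ℕ) : ℚ) < m := by exact_mod_cast h5
      have h8 : (m : ℚ) < M * ((x - m : ℕ) : ℚ) + ((x - m : ℕ) : ℚ) := by exact_mod_cast h6
      have h9 : ((kk K m x 0 : ℕ) : ℚ) = M + 1 := by rw [hk1]; push_cast; rfl
      rw [h9]
      have h10 : (0 : ℚ) < ((x - m : ℕ) : ℚ) := by
        have := h.Y1
        exact_mod_cast this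
      rcases neg_one_pow_eq_or ℚ (kk K m x 0) with h11 | h11
      · rw [h11]
        intro h12
        linarith
      · rw [h11]
        intro h12
        linarith)
    refine h.solve G hG0 hG1 ?_ hG3 hG4 b hb
    intro t l h1 h2 hq
    rcases Nat.lt_or_ge M t with h3 | h3
    · have h4 : t = M + 1 := by omega
      subst h4
      have h5 := h.FF_left' hq
      have h7 := hG2' (x - (M + 1) - l) (by omega) (by omega)
      have e1 : ((x - (M + 1) - l : ℕ) : ℚ) = (x : ℚ) - ((M + 1 : ℕ) : ℚ) - l := by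
        rw [Nat.cast_sub (by omega), Nat.cast_sub (by omega)]
      rw [e1] at h7
      have e2 : ((kk K m x 0 : ℕ) : ℚ) = ((M + 1 : ℕ) : ℚ) := by rw [hk1]
      rw [e2] at h7
      exact h7
    · have h5 := h.FF_left h1 h3 hq
      have h7 := hG2 t (x - t - l) (by omega) (by omega) (by omega)
      have e1 : ((x - t - l : ℕ) : ℚ) = (x : ℚ) - (t : ℚ) - l := by
        rw [Nat.cast_sub (by omega), Nat.cast_sub (by omega)]
      rw [e1] at h7
      exact h7
  · obtain ⟨G, hG0, hG1, hG2, hG3, hG4⟩ := t_TEST t_POS (kk K m x j) m (x - m) h.k1 h.hm h.Y1 h.hY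
    refine h.solve G hG0 hG1 ?_ hG3 hG4 b hb
    intro t l h1 h2 hq
    have h5 := h.FF_left h1 (h2.trans hk) hq
    have h7 := hG2 t (x - t - l) (by omega) (by omega) h2
    have e1 : ((x - t - l : ℕ) : ℚ) = (x : ℚ) - (t : ℚ) - l := by
      rw [Nat.cast_sub (by omega), Nat.cast_sub (by omega)]
    rw [e1] at h7
    exact h7

/-- **the block** -/
theorem emp (h : Dat M K m x j) (hT2 : S_TEST2) (hP2 : S_POS2) {w : Fin (M + 2) → ℕ}
    (hw : ∀ i, m ≤ w i) (hs : ∑ i, w i = (M + 2) * m + j) : Emp w (Blk M K (3 * x)) := by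
  classical
  have hK := h.K0
  have hKM : 0 < K - M := by linarith [h.MK]
  have key := EF.VALw (M + 2) w (SS M K x)
    (fun κ => ⌊ee K m x j + j + (K + 1) * ((m : ℝ) - κ)⌋) (by
      intro κ p hp hκp
      rw [mem_SS] at hp
      obtain ⟨-, -, h3⟩ := hp
      rw [Int.le_floor]
      have h4 : (κ : ℝ) ≤ p.2 := by exact_mod_cast hκp
      have h5 := h.Kx
      have h6 : K * ((x : ℝ) - p.2) ≤ K * ((x : ℝ) - κ) :=
        mul_le_mul_of_nonneg_left (by linarith) hK.le
      push_cast
      rw [mul_sub, h5] at h6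
      linarith) (by
      intro c hc
      have hR : ∀ κ ≤ m, ∀ D : ℤ, ee K m x j - ((M : ℝ) + 1 - K) * ((m : ℝ) - κ) < D →
          EF.Rel (SS M K x) c κ D := by
        intro κ hκ D hD
        apply hc κ D
        have h0 : ∑ i, (w i - κ) = (M + 2) * (m - κ) + j := by
          have h1 : ∑ i, (w i - κ) + ∑ _i : Fin (M + 2), κ = ∑ i, w i := by
            rw [← sum_add_distrib]
            apply sum_congr rfl
            intro i _
            have := hw i
            omega
          rw [sum_const, card_univ, Fintype.card_fin, hs, smul_eq_mul] at h1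
          obtain ⟨r, rfl⟩ := Nat.exists_eq_add_of_le hκ
          have e3 : κ + r - κ = r := by omega
          rw [e3]
          rw [Nat.mul_add] at h1
          omega
        have h1 : ⌊ee K m x j + j + (K + 1) * ((m : ℝ) - κ)⌋ <
            D + ((∑ i, (w i - κ) : ℕ) : ℤ) := by
          rw [h0, Int.floor_lt]
          push_cast [Nat.cast_sub hκ]
          linarith
        linarith
      have hpos : ∀ κ ≤ m, ∀ D : ℤ, 1 ≤ D → EF.Rel (SS M K x) c κ D := by
        intro κ hκ D hD
        apply hR κ hκ D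
        have h1 : (1 : ℝ) ≤ D := by exact_mod_cast hD
        have h2 : (κ : ℝ) ≤ m := by exact_mod_cast hκ
        have h3 := h.e12
        have h4 : 0 ≤ ((M : ℝ) + 1 - K) * ((m : ℝ) - κ) := mul_nonneg h.lam0.le (by linarith)
        linarith
      choose g hg1 hg2 hg3 using h.quot c hpos
      have hb := h.solve' hT2 hP2 (fun q => (g q.1).coeff q.2) (by
        intro n κ hκ
        apply h.red c g hg2 hg3 n κ
        apply hR κ (h.NN_lt_m hκ).le
        have := h.lt_NN.1 hκ
        push_cast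
        linarith)
      have hg0 : ∀ t, g t = 0 := by
        intro t
        ext l
        rw [coeff_zero]
        by_contra h1
        exact h1 (hb (t, l) (hg2 t l h1))
      rintro ⟨t, j⟩ hp
      have h1 : (colP M K x c t).coeff j = 0 := by
        rw [hg1 t, hg0 t, mul_zero, coeff_zero]
      rw [colP_coeff, cc_in hp] at h1
      exact h1)
  refine key.mono ?_
  rintro ⟨a, b⟩ hab
  obtain ⟨h1, h2, h3⟩ := hab
  simp only at h1 h2 h3
  have e : (((3 * x : ℕ) : ℝ)) / 3 = x := by push_cast; ring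
  rw [e] at h2 h3
  obtain ⟨j', rfl⟩ : ∃ j' : ℕ, b = j' := ⟨b.toNat, by omega⟩
  push_cast at h2 h3
  have hjx : (j' : ℝ) ≤ x := by
    by_contra h4
    push Not at h4
    have h5 : ((x : ℝ) - j') < 0 := by linarith
    have h6 : K * ((x : ℝ) - j') < (K - M) * ((x : ℝ) - j') := by
      have : (0 : ℝ) < M := by exact_mod_cast h.M0
      nlinarith
    linarith
  have ha0 : (0 : ℝ) ≤ a := by
    have : 0 ≤ (K - M) * ((x : ℝ) - j') := mul_nonneg hKM.le (by linarith)
    linarith
  have ha1 : 0 ≤ a := by exact_mod_cast ha0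
  obtain ⟨t, rfl⟩ : ∃ t : ℕ, a = t := ⟨a.toNat, by omega⟩
  push_cast at h2 h3
  refine ⟨(t, j'), ?_, rfl⟩
  rw [mem_SS]
  refine ⟨⟨?_, by exact_mod_cast hjx⟩, h2, h3⟩
  apply Nat.le_floor
  refine h3.trans ?_
  apply mul_le_mul_of_nonneg_left _ hK.le
  have : (0 : ℝ) ≤ j := Nat.cast_nonneg j
  linarith

end Dat

end Pool.Agent.N388.EFW
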