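import Pool.Agent.N388.EFW.Dat1
import Pool.Agent.N388.EF.POS2
import Pool.Agent.N388.EF.TEST2
import Pool.Agent.N135.QT.Unif

/-! Anticanonical degrees, blocks of `M + 2` points: the better threshold. -/

set_option autoImplicit false

namespace Pool.Agent.N388.EFW

open Finset Pool.Agent.TH176.Nag Pool.Agent.TH603.Sur Pool.Agent.TH603.Cut Pool.Agent.H932R3
open Pool.Agent.TH864.SX (Fb Fa Slp Blk)
open Pool.Agent.TH469.SX (Bo Fl)
open Pool.Agent.TH978.S13 (Sc Emp_shift Sur_shift Emp_add Sur_add Emp_units Sur_units Emp_plane9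
  Sur_plane9 Emp_equiv Sur_equiv KN slpN sqN)
open Pool.Agent.TH864.DP (bl wt3 Emp_copies Sur_copies eqf eqf_spec or_equiv)
open Pool.Agent.TH759.EV (Sur_rows_w)
open Pool.Agent.N135.QT (BB sM sM_sq sM_lt KN_eq sM_root)

/-- the numerical condition -/
def Good (M b D m : ℕ) : Prop :=
  (KN M * D - (KN M + 1) * m < b) ∨
    (KN M * D - (KN M + 1) * m - b < KN M - M ∧
      (KN M * D - (KN M + 1) * m - b) * (2 * KN M + 1) + b < M + 1 ∧
      ¬ (M = 1 ∧ b = 1 ∧ m = 3 ∧ D = 6)) ∨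
    b * (2 * KN M + 1) ≤ (2 * (KN M * D - (KN M + 1) * m) - 1) * (KN M + 1)

theorem near_bl3 {M b c : ℕ} (hM : 1 ≤ M) (hbc : b + c = M + 2) (hc : 0 < c) {m D : ℕ}
    (hG : Good M b D m) :
    Emp (bl b c m) (BB M D (KN M)) ∨ Sur (bl b c m) (Sc (KN M - M) (KN M) D) := by
  classical
  rcases lt_or_ge (KN M * D - (KN M + 1) * m) b with h0 | h0
  · exact N135.QT.near_bl2 hM hbc hc (Or.inl h0)
  rcases hG with hG | ⟨hG1, hG2, hG3⟩ | hG
  · exact absurd hG (not_lt.2 h0)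
  swap
  · exact N135.QT.near_bl2 hM hbc hc (Or.inr (Or.inr hG))
  obtain ⟨hS, hK1, hK2⟩ := slpN hM
  have hK0 := hS.K0
  have hee : ee (KN M) m D b = KN M * D - (KN M + 1) * m - b := rfl
  have e0 : 0 ≤ ee (KN M) m D b := by rw [hee]; linarith
  have hd : (((3 * D : ℕ) : ℝ)) / 3 = D := by push_cast; ring
  by_cases hm : 2 * kk (KN M) m D b ≤ m
  · left
    have hD := dat_of hS e0 hG1 hG2 hm hG3
    have eqv : Fin b ⊕ Fin c ≃ Fin (M + 2) := finSumFinEquiv.trans (finCongr hbc)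
    have key := hD.emp EF.t_TEST2 EF.t_POS2 (w := fun i => bl b c m (eqv.symm i)) (by
      intro i
      rcases eqv.symm i with a | a
      · exact Nat.le_succ m
      · exact le_rfl) (by
      rw [Equiv.sum_comp eqv.symm (bl b c m)]
      simp only [bl, Fintype.sum_sum_type, Sum.elim_inl, Sum.elim_inr, sum_const, card_univ,
        Fintype.card_fin, smul_eq_mul]
      rw [← hbc]
      ring)
    have key2 := Emp_equiv (v := bl b c m) eqv.symm (fun _ => rfl) key
    refine key2.mono ?_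
    rintro p ⟨g1, g2, g3⟩
    refine ⟨g1, ?_, ?_⟩
    · rw [hd]; exact g2
    · rw [hd]; exact g3
  right
  have heq : 2 * (KN M * (KN M - M)) = M := by
    have := hS.eq
    push_cast at this
    exact this
  have hp1 : 0 < 2 * KN M + 1 := by linarith
  have hKM : KN M - M < 1 / 2 := by
    by_contra hcon
    push Not at hcon
    have h3 : (KN M - M) * (2 * KN M + 1) = KN M := by linear_combination heq
    have := mul_le_mul_of_nonneg_right hcon hp1.le
    linarith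
  obtain ⟨e, he⟩ : ∃ e : ℝ, e = ee (KN M) m D b := ⟨_, rfl⟩
  have hA : KN M * D = e + b + (KN M + 1) * m := by rw [he, hee]; ring
  unfold kk at hm
  rw [← he] at hm e0
  rw [← hee, ← he] at hG1
  have hrow := EF.t_ROWS M m (KN M) e hS.hM hK1 heq e0 (by linarith) (by
    have h1 : (⌊e * (2 * KN M + 1)⌋₊ : ℤ) = ⌊e * (2 * KN M + 1)⌋ :=
      Int.natCast_floor_eq_floor (mul_nonneg e0 hp1.le)
    rw [← h1]
    omega)
  have hSur : Sur (bl b c m) (Fl 2 (KN M) (KN M * (3 * D : ℕ) / 3)) := by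
    refine Sur_rows_w (p := 1) (by norm_num) hK0 fun k hk => ?_
    have hsum : ∀ k ≤ m, ∑ i, (bl b c m i - k) = (M + 2) * (m - k) + b := by
      intro k hk
      simp only [bl, Fintype.sum_sum_type, Sum.elim_inl, Sum.elim_inr, sum_const, card_univ,
        Fintype.card_fin, smul_eq_mul]
      rw [← hbc, show m + 1 - k = (m - k) + 1 by omega]
      ring
    have hkm : k ≤ m := by
      obtain ⟨i, hi⟩ := hk
      rcases i with a | a
      · simp only [bl, Sum.elim_inl] at hi; omega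
      · simp only [bl, Sum.elim_inr] at hi; omega
    rw [hsum k hkm]
    have e2 : KN M * ((3 * D : ℕ) : ℝ) / 3 - (KN M + (1 : ℕ)) * k =
        e + (KN M + 1) * ((m : ℝ) - k) + (b : ℕ) := by
      push_cast
      linear_combination hA
    rw [e2, Int.floor_add_natCast]
    have hU : ⌊(e + (KN M + 1) * ((m : ℝ) - k) - (KN M + 1)) / (2 * (KN M + 1) - 1)⌋ ≤
        ⌊(e + (KN M + 1) * ((m : ℝ) - k) + (b : ℕ) - (KN M + (1 : ℕ))) /
          (((2 : ℕ) : ℝ) * (KN M + (1 : ℕ)) - 1)⌋ := by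
      apply Int.floor_le_floor
      have hb0 : (0 : ℝ) ≤ b := Nat.cast_nonneg b
      push_cast
      apply div_le_div_of_nonneg_right _ (by linarith)
      linarith
    rcases Nat.lt_or_ge k m with h1 | h1
    · have h2 := hrow k h1
      have h3 : ((((M + 2) * (m - k) + b : ℕ)) : ℤ) = ((M : ℤ) + 2) * ((m : ℤ) - k) + b := by
        push_cast [Nat.cast_sub hkm]
        ring
      rw [h3]
      linarith
    · have h2 : k = m := by omega
      subst h2
      have h3 : (-1 : ℤ) ≤ ⌊(e + (KN M + 1) * ((k : ℝ) - k) + (b : ℕ) - (KN M + (1 : ℕ))) /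
          (((2 : ℕ) : ℝ) * (KN M + (1 : ℕ)) - 1)⌋ := by
        rw [Int.le_floor]
        have hb0 : (0 : ℝ) ≤ b := Nat.cast_nonneg b
        push_cast
        rw [le_div_iff₀ (by linarith)]
        linarith
      have h4 : (0 : ℤ) ≤ ⌊e + (KN M + 1) * ((k : ℝ) - k)⌋ := by
        rw [Int.le_floor]
        push_cast
        linarith
      rw [Nat.sub_self, mul_zero, zero_add]
      push_cast at h3 h4 ⊢
      linarith
  have h1 := Pool.Agent.TH469.SX.Sur_bo hS (d := 3 * D) (by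
    rw [Pool.Agent.TH469.SX.Fb_eq]
    exact hSur)
  refine h1.mono ?_
  rintro p ⟨g1, g2, g3⟩
  rw [hd] at g2 g3
  exact ⟨g1, g2, g3⟩

theorem near_anti3 {M r k b c : ℕ} (hM : 1 ≤ M) (hk : (r + 1) * M + k = 9) (hbc : b + c = M + 2)
    (hc : 0 < c) {h m : ℕ} (hG : Good M b h m) :
    Emp (Sum.elim (fun p : Fin (r + 1) × (Fin b ⊕ Fin c) => bl b c m p.2) (fun _ : Fin k => h))
      (TZ (3 * h)) ∨
    Sur (Sum.elim (fun p : Fin (r + 1) × (Fin b ⊕ Fin c) => bl b c m p.2) (fun _ : Fin k => h))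
      (TZ (3 * h)) := by
  obtain ⟨hS, hK1, hK2⟩ := slpN hM
  have hK0 := hS.K0
  obtain ⟨x, hx⟩ : ∃ x : ℝ, x = KN M - M := ⟨_, rfl⟩
  have hirr : Irrational x := by
    rw [hx]
    exact hS.irr.sub_natCast M
  have hx0 : 0 < x := by rw [hx]; linarith
  have hx3 : x < 3 := by rw [hx]; linarith
  have hxM : x + M = KN M := by rw [hx]; ring
  have ha : 1 ≤ (r + 1) * M := Nat.mul_pos (Nat.succ_pos r) hM
  have h9 : x + (((r + 1) * M + k : ℕ) : ℝ) = x + 9 := by rw [hk]; push_cast; ring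
  rcases near_bl3 hM hbc hc hG with hd' | hd'
  · left
    have h2 : Emp (bl b c m) (Sc x (x + M) h ∪ {((0, (h : ℤ)) : ℤ × ℤ)}) := by
      refine hd'.mono ?_
      rintro p (⟨g1, g2, g3⟩ | hp)
      · refine ⟨g1, ?_, ?_⟩
        · rw [← hx]; exact g2.le
        · rw [← hxM]; exact g3.le
      · rw [Set.mem_singleton_iff] at hp
        rw [hp]
        refine ⟨by simp, ?_, ?_⟩ <;> simp
    have h3 := Emp_units ha hirr (Emp_copies hM hirr h2 r) k
    rw [h9] at h3
    exact Emp_plane9 hirr hx0 hx3 h3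
  · right
    rw [← hx, ← hxM] at hd'
    have h3 := Sur_units ha hirr (Sur_copies hM hd' r) k
    rw [h9] at h3
    exact Sur_plane9 hirr hx0 hx3 h3

theorem joint3 {M r k b : ℕ} (hM : 1 ≤ M) (hr : 1 ≤ r) (hk : k + r * M = 9) (hb : b ≤ M + 1)
    {D m : ℕ} (hG : Good M b D m) :
    Emp (wt3 (k + r * (M + 2)) k (r * b) D m) (TZ (3 * D)) ∨
    Sur (wt3 (k + r * (M + 2)) k (r * b) D m) (TZ (3 * D)) := by
  obtain ⟨r, rfl⟩ : ∃ r', r = r' + 1 := ⟨r - 1, by omega⟩
  obtain ⟨c, hc⟩ : ∃ c, b + c = M + 2 := ⟨M + 2 - b, by omega⟩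
  have hn : k + ((r + 1) * b + (r + 1) * c) = k + (r + 1) * (M + 2) := by
    rw [← hc]; ring
  exact or_equiv (eqf (r + 1) b c k _ hn) (eqf_spec (r + 1) b c k _ hn D m)
    (near_anti3 hM (by rw [add_comm]; exact hk) hc (by omega) hG)

/-- the condition in closed form -/
theorem good_of {M b D m : ℕ}
    (h : ((M + sM M) * D - (M + 2 + sM M) * m < 2 * b) ∨
      ((M + sM M) * D - (M + 2 + sM M) * m < 2 * b + (sM M - M) ∧
        (M + sM M) * D - (M + 2 + sM M) * m < 2 * b + 2 * ((M : ℝ) + 1 - b) * (M + 1 - sM M) ∧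
        ¬ (M = 1 ∧ b = 1 ∧ m = 3 ∧ D = 6)) ∨
      ((M : ℝ) + 2) * (2 * m + 1) + 2 * b ≤ sM M * (2 * D + 1)) : Good M b D m := by
  have hs := sM_sq M
  have hlt := sM_lt M
  have hs0 : 0 ≤ sM M := Real.sqrt_nonneg _
  have hM0 : (0 : ℝ) ≤ M := Nat.cast_nonneg M
  obtain ⟨s, hs'⟩ : ∃ s, s = sM M := ⟨_, rfl⟩
  unfold Good
  rw [KN_eq]
  rw [← hs'] at h hs hlt hs0 ⊢
  rcases h with h | ⟨h0, h, h2⟩ | h
  · left
    linarith
  · right; left
    refine ⟨by linarith, ?_, h2⟩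
    have h3 : ((M + s) / 2 * D - ((M + s) / 2 + 1) * m - b) < ((M : ℝ) + 1 - b) * (M + 1 - s) := by
      linarith
    have h4 : (0 : ℝ) < 2 * ((M + s) / 2) + 1 := by linarith
    have h5 := mul_lt_mul_of_pos_right h3 h4
    have h6 : ((M : ℝ) + 1 - b) * (M + 1 - s) * (2 * ((M + s) / 2) + 1) = M + 1 - b := by
      linear_combination (-((M : ℝ) + 1 - b)) * hs
    rw [h6] at h5
    linarith
  · right; right
    have h3 : 0 ≤ (s * (2 * D + 1) - (((M : ℝ) + 2) * (2 * m + 1) + 2 * b)) * (M + 1 + s) :=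
      mul_nonneg (by linarith) (by linarith)
    have h4 : (2 * ((M + s) / 2 * D - ((M + s) / 2 + 1) * m) - 1) * ((M + s) / 2 + 1) -
        b * (2 * ((M + s) / 2) + 1) =
        (s * (2 * D + 1) - (((M : ℝ) + 2) * (2 * m + 1) + 2 * b)) * (M + 1 + s) / 2 := by
      linear_combination (-(1 : ℝ) / 2 * (D + m + 1)) * hs
    linarith

/-- the condition for equal multiplicities, `n = 9 + 2 r` points, `M r = 9` -/
theorem good_root {M r n D m : ℕ} (hMr : M * r = 9) (hn : n = 9 + 2 * r)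
    (h : (√(n : ℝ) + 3) * ((3 * D : ℕ) - √(n : ℝ) * m) < 3 * (√(n : ℝ) - 3) ∨
      √(n : ℝ) * (2 * m + 1) ≤ 2 * (3 * D : ℕ) + 3) : Good M 0 D m := by
  have h1 : (M : ℝ) * r = 9 := by exact_mod_cast hMr
  have h2 : √(n : ℝ) * √(n : ℝ) = n := Real.mul_self_sqrt (Nat.cast_nonneg n)
  have h6 : (n : ℝ) = 9 + 2 * r := by rw [hn]; push_cast; ring
  have hs := sM_root hMr hn
  have hr0 : 0 < r := Nat.pos_of_ne_zero (by rintro rfl; simp at hMr)
  have hM0 : 0 < M := Nat.pos_of_ne_zero (by rintro rfl; simp at hMr)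
  have hrR : (0 : ℝ) < r := by exact_mod_cast hr0
  have hMR : (1 : ℝ) ≤ M := by exact_mod_cast hM0
  obtain ⟨ρ, hρ⟩ : ∃ ρ, ρ = √(n : ℝ) := ⟨_, rfl⟩
  rw [← hρ] at h hs h2
  have hρ0 : 0 ≤ ρ := by rw [hρ]; exact Real.sqrt_nonneg _
  have hρ2 : ρ * ρ = 9 + 2 * r := by rw [h2, h6]
  apply good_of
  push_cast at h
  have hq := sM_sq M
  have hlt := sM_lt M
  rcases h with h | h
  · right; left
    have h5 : ((M + sM M) * D - (M + 2 + sM M) * m) * r < (sM M - M) * r := by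
      have e5 : ((M + sM M) * D - (M + 2 + sM M) * m) * r = (ρ + 3) * (3 * D - ρ * m) := by
        linear_combination (D - m : ℝ) * h1 + (D - m : ℝ) * hs + (m : ℝ) * hρ2
      have e6 : (sM M - M) * r = 3 * (ρ - 3) := by
        linear_combination hs - h1
      rw [e5, e6]
      exact h
    have h7 := lt_of_mul_lt_mul_right h5 hrR.le
    refine ⟨by push_cast; linarith, ?_, fun h3 => by omega⟩
    -- `s - M ≤ 2 (M + 1) (M + 1 - s)`
    have h8 : sM M - M ≤ 2 * (M + 1) * (M + 1 - sM M) := by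
      have h9 : 0 ≤ (M + 1 - sM M) * (M + 1 - sM M) := by nlinarith
      have h10 : 0 ≤ sM M := Real.sqrt_nonneg _
      nlinarith
    push_cast
    linarith
  · right; right
    push_cast
    have h3 := mul_le_mul_of_nonneg_left h hρ0
    have h4 : ((((M : ℝ) + 2) * (2 * m + 1) + 2 * 0) * r) ≤ (sM M * (2 * D + 1)) * r := by
      have e5 : ((((M : ℝ) + 2) * (2 * m + 1) + 2 * 0) * r) = ρ * (ρ * (2 * m + 1)) := by
        linear_combination (2 * m + 1 : ℝ) * h1 - (2 * m + 1 : ℝ) * hρ2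
      have e6 : (sM M * (2 * D + 1)) * r = ρ * (2 * (3 * D) + 3) := by
        linear_combination (2 * D + 1 : ℝ) * hs
      rw [e5, e6]
      exact h3
    exact le_of_mul_le_mul_right h4 hrR

theorem dich_unif {M r n : ℕ} (hMr : M * r = 9) (hn : n = 9 + 2 * r) {D m : ℕ}
    (hG : Good M 0 D m) : Emp (fun _ : Fin n => m) (TZ (3 * D)) ∨ Sur (fun _ : Fin n => m) (TZ (3 * D)) := by
  have hM : 1 ≤ M := Nat.pos_of_ne_zero (by rintro rfl; simp at hMr)
  have hr : 1 ≤ r := Nat.pos_of_ne_zero (by rintro rfl; simp at hMr)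
  have hn' : 0 + r * (M + 2) = n := by rw [hn]; nlinarith
  subst hn'
  have h := joint3 (M := M) (r := r) (k := 0) (b := 0) (D := D) (m := m) hM hr
    (by rw [zero_add, mul_comm]; exact hMr) (by omega) hG
  have e : wt3 (0 + r * (M + 2)) 0 (r * 0) D m = fun _ => m := by
    funext i
    simp [wt3]
  rw [e] at h
  exact h

/-- **11, 15 and 27 points** -/
theorem uniform3 {n : ℕ} (hn : n = 11 ∨ n = 15 ∨ n = 27) (m : ℕ) :
    ∃ F : MvPolynomial (Fin n × Fin 2) ℚ, F ≠ 0 ∧ ∀ {L : Type} [Field L] [CharZero L]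
      (P : Fin n → Fin 2 → L), MvPolynomial.aeval (fun ij : Fin n × Fin 2 => P ij.1 ij.2) F ≠ 0 →
      ∀ d : ℕ, ((¬ 3 ∣ d ∧ n ≠ 27) ∨
        (3 ∣ d ∧ (√(n : ℝ) + 3) * (d - √(n : ℝ) * m) < 3 * (√(n : ℝ) - 3)) ∨
        (3 ∣ d ∧ √(n : ℝ) * (2 * m + 1) ≤ 2 * d + 3)) → ExpDim L (fun _ => m) P d := by
  refine Pool.Agent.TH864.SX.expDim_of_or' fun d hd => ?_
  by_cases h3 : 3 ∣ d
  · obtain ⟨D, rfl⟩ := h3
    have h3' : 3 ∣ 3 * D := ⟨D, rfl⟩
    have key : ∀ {M r : ℕ}, M * r = 9 → n = 9 + 2 * r →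
        Emp (fun _ : Fin n => m) (TZ (3 * D)) ∨ Sur (fun _ : Fin n => m) (TZ (3 * D)) := by
      intro M r hMr hn'
      refine dich_unif hMr hn' (good_root hMr hn' ?_)
      rcases hd with hd | hd | hd
      · exact absurd h3' hd.1
      · exact Or.inl hd.2
      · exact Or.inr hd.2
    rcases hn with rfl | rfl | rfl
    · exact key (M := 9) (r := 1) (by norm_num) (by norm_num)
    · exact key (M := 3) (r := 3) (by norm_num) (by norm_num)
    · exact key (M := 1) (r := 9) (by norm_num) (by norm_num)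
  · have hn27 : n ≠ 27 := by
      rcases hd with hd | hd | hd
      · exact hd.2
      · exact absurd hd.1 h3
      · exact absurd hd.1 h3
    rcases hn with rfl | rfl | rfl
    · exact Pool.Agent.TH864.SX.dich' Pool.Agent.TH864.SX.num11 Pool.Agent.TH864.SX.K11_lt m d (Or.inl h3)
    · exact Pool.Agent.TH469.SX.dich_three (b := 5) Pool.Agent.TH469.SX.slp15
        Pool.Agent.TH469.SX.K15_lt (Pool.Agent.TH469.SX.dich5 m d (Or.inl h3))
    · exact absurd rfl hn27

end Pool.Agent.N388.EFW
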