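import Pool.Agent.N388.EFW.Block
import Pool.Agent.N388.EF.POS2
import Pool.Agent.N388.EF.Final

/-! 11 and 15 general points of one multiplicity, threshold `K - M`. -/

set_option autoImplicit false

namespace Pool.Agent.N388.EFW

open Finset Pool.Agent.TH176.Nag Pool.Agent.TH603.Sur Pool.Agent.TH603.Cut Pool.Agent.TH641.NW
  Pool.Agent.H932R3
open Pool.Agent.TH864.SX (Slp Blk Fa Fb K11 num11 sq11 K11_lt)
open Pool.Agent.TH469.SX (K15 slp15 sq15 K15_lt)
open Pool.Agent.N388.EF (S_TEST2 t_POS2 t_ROWS Emp_TZ9' Emp_TZ3')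

/-- the data for one multiplicity -/
theorem Dat.uni {M : ℕ} {K : ℝ} {m x : ℕ} (hM : 3 ≤ M) (sl : Slp M 2 K) (e0 : 0 ≤ ee K m x 0)
    (e1 : ee K m x 0 < K - M) (hm : 2 * kk K m x 0 ≤ m) : Dat M K m x 0 := by
  have hK0 := sl.K0
  have hMK := sl.hMK
  have hp1 : 0 < 2 * K + 1 := by linarith
  have heq : 2 * (K * (K - M)) = M := by
    have := sl.eq
    push_cast at this
    exact this
  have heqK : (K - M) * (2 * K + 1) = K := by linear_combination heq
  have hKM : K - M < 1 / 2 := by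
    by_contra hcon
    push Not at hcon
    have := mul_le_mul_of_nonneg_right hcon hp1.le
    linarith
  have e2 : ee K m x 0 * (2 * K + 1) < K := by
    have := mul_lt_mul_of_pos_right e1 hp1
    rw [heqK] at this
    exact this
  have hM3 : (3 : ℝ) ≤ M := by exact_mod_cast hM
  have hKM3 : (M : ℝ) + 3 * (K - M) > 3 := by linarith
  refine ⟨sl, e0, e1, ?_, hm, ?_⟩
  · push_cast
    linarith
  -- the index
  have hkM : kk K m x 0 ≤ M + 1 := by
    unfold kk
    have h2 := Nat.floor_le (mul_nonneg e0 hp1.le)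
    have h4 : ((⌊ee K m x 0 * (2 * K + 1)⌋₊ : ℕ) : ℝ) < ((M + 1 : ℕ) : ℝ) := by
      push_cast
      linarith
    have h5 : ⌊ee K m x 0 * (2 * K + 1)⌋₊ < M + 1 := by exact_mod_cast h4
    omega
  have hk1 : 1 ≤ kk K m x 0 := by unfold kk; omega
  have hm0 : 0 < m := by omega
  have hm0R : (0 : ℝ) < m := by exact_mod_cast hm0
  have hKx : K * x = ee K m x 0 + (K + 1) * m := by unfold ee; push_cast; ring
  have hxm : m < x := by
    have h6 : K * (m : ℝ) < K * x := by rw [hKx]; nlinarith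
    have h7 := lt_of_mul_lt_mul_left h6 hK0.le
    exact_mod_cast h7
  have hYR : K * ((x - m : ℕ) : ℝ) = ee K m x 0 + m := by
    rw [Nat.cast_sub hxm.le]
    linarith
  obtain ⟨Y, hY⟩ : ∃ Y, Y = x - m := ⟨_, rfl⟩
  rw [← hY] at hYR ⊢
  obtain ⟨n, hn⟩ : ∃ n, m = 2 * kk K m x 0 + n := ⟨m - 2 * kk K m x 0, by omega⟩
  have hmR : (m : ℝ) = 2 * (kk K m x 0 : ℝ) + n := by exact_mod_cast hn
  have hkR : (kk K m x 0 : ℝ) ≤ M + 1 := by exact_mod_cast hkM
  rcases Nat.eq_zero_or_pos n with hn0 | hn0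
  · subst hn0
    have hY2 : Y < 3 := by
      have h8 : K * (Y : ℝ) < K * 3 := by
        rw [hYR, hmR]
        push_cast
        linarith
      have h9 := lt_of_mul_lt_mul_left h8 hK0.le
      exact_mod_cast h9
    by_contra hcon
    have hY3 : Y = 2 := by omega
    rw [hY3, hmR] at hYR
    push_cast at hYR
    -- `2 K = e + 2 k`
    have h10 : (kk K m x 0 : ℝ) ≤ K := by linarith
    have h11 : kk K m x 0 ≤ M := by
      have h12 : (kk K m x 0 : ℝ) < ((M + 1 : ℕ) : ℝ) := by push_cast; linarith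
      have h13 : kk K m x 0 < M + 1 := by exact_mod_cast h12
      omega
    have h14 : (kk K m x 0 : ℝ) ≤ M := by exact_mod_cast h11
    linarith
  · have h8 : (Y : ℝ) < n + 2 := by
      have h9 : K * (Y : ℝ) < K * (n + 2) := by
        rw [hYR, hmR]
        have hn1 : (1 : ℝ) ≤ n := by exact_mod_cast hn0
        nlinarith
      exact lt_of_mul_lt_mul_left h9 hK0.le
    have h9 : Y < n + 2 := by exact_mod_cast h8
    omega

/-- **the dichotomy in one block** -/
theorem blk_dich {M : ℕ} {K : ℝ} (hT2 : S_TEST2) (hM : 3 ≤ M) (h : Slp M 2 K) {m x : ℕ}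
    (e0 : 0 ≤ ee K m x 0) (e1 : ee K m x 0 < K - M) :
    Emp (fun _ : Fin (M + 2) => m) (Blk M K (3 * x)) ∨
      Sur (fun _ : Fin (M + 2) => m) (Fb 2 K (3 * x)) := by
  by_cases hm : 2 * kk K m x 0 ≤ m
  · left
    exact (Dat.uni hM h e0 e1 hm).emp hT2 t_POS2 (fun _ => le_rfl) (by simp)
  right
  have hK0 := h.K0
  have hp1 : 0 < 2 * K + 1 := by linarith
  obtain ⟨e, he⟩ : ∃ e : ℝ, e = ee K m x 0 := ⟨_, rfl⟩
  rw [← he] at e0 e1
  unfold kk at hm
  rw [← he] at hm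
  have heq : 2 * (K * (K - M)) = M := by
    have := h.eq
    push_cast at this
    exact this
  have hMK : (M : ℝ) < K := h.hMK
  have hKM : K - M < 1 / 2 := by
    by_contra hcon
    push Not at hcon
    have h3 : (K - M) * (2 * K + 1) = K := by linear_combination heq
    have := mul_le_mul_of_nonneg_right hcon hp1.le
    linarith
  have hrow := t_ROWS M m K e h.hM hMK heq e0 (by linarith) (by
    have h1 : (⌊e * (2 * K + 1)⌋₊ : ℤ) = ⌊e * (2 * K + 1)⌋ :=
      Int.natCast_floor_eq_floor (mul_nonneg e0 hp1.le)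
    rw [← h1]
    omega)
  rw [Pool.Agent.TH469.SX.Fb_eq]
  refine Pool.Agent.TH469.SX.Sur_rows' (p := 1) (M := M) rfl hK0 (by simp) ?_
  intro k hk
  have h1 := hrow k hk
  have e2 : K * ((3 * x : ℕ) : ℝ) / 3 - (K + (1 : ℕ)) * k = e + (K + 1) * ((m : ℝ) - k) := by
    rw [he]
    unfold ee
    push_cast
    ring
  rw [e2]
  push_cast
  simpa using h1

/-- **11 points** -/
theorem dich11 (hT2 : S_TEST2) (m d : ℕ) (hG : ¬ (3 ∣ d ∧
    3 * (√11 - 3) / (√11 + 3) ≤ (d : ℝ) - √11 * m ∧ (d : ℝ) - √11 * m < (√11 - 3) / 2)) :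
    Emp (fun _ : Fin 11 => m) (TZ d) ∨ Sur (fun _ : Fin 11 => m) (TZ d) := by
  by_cases hold : ¬ 3 ∣ d ∨ (d : ℝ) < √((11 : ℕ) : ℝ) * m ∨ √((11 : ℕ) : ℝ) * (2 * m + 1) ≤ 2 * d + 3
  · exact Pool.Agent.TH864.SX.dich' num11 K11_lt m d hold
  push Not at hold
  push_cast at hold
  obtain ⟨h3, h4, h5⟩ := hold
  have hs := sq11
  have hs0 : 0 ≤ √(11 : ℝ) := Real.sqrt_nonneg _
  have hG2 : (d : ℝ) - √11 * m < 3 * (√11 - 3) / (√11 + 3) := by
    by_contra hcon
    push Not at hcon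
    exact hG ⟨h3, hcon, by linarith⟩
  obtain ⟨x, rfl⟩ := h3
  rw [lt_div_iff₀ (by positivity)] at hG2
  have hK9 : (9 : ℝ) < K11 := by have := num11.sl.hMK; push_cast at this; exact this
  have hsl : Slp 9 2 K11 := num11.sl
  push_cast at h4 hG2
  have e1 : ee K11 m x 0 = (3 + √11) / 2 * (3 * x - √11 * m) := by
    unfold ee K11
    push_cast
    linear_combination ((m : ℝ) / 2) * hs
  rcases blk_dich hT2 (by norm_num) hsl (m := m) (x := x) (by
      rw [e1]
      apply mul_nonneg (by positivity)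
      linarith) (by
      rw [e1]
      unfold K11
      push_cast
      linarith) with h7 | h7
  · left
    exact Emp_TZ9' hK9 K11_lt h7
  · right
    exact Pool.Agent.TH864.SX.Sur_TZ9 hsl K11_lt (h7.mono Pool.Agent.TH864.SX.Fb_subset)

/-- **15 points** -/
theorem dich15 (hT2 : S_TEST2) (m d : ℕ) (hG : ¬ (3 ∣ d ∧
    3 * (√15 - 3) / (√15 + 3) ≤ (d : ℝ) - √15 * m ∧ (d : ℝ) - √15 * m < (√15 - 3) / 2)) :
    Emp (fun _ : Fin 15 => m) (TZ d) ∨ Sur (fun _ : Fin 15 => m) (TZ d) := by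
  by_cases hold : ¬ 3 ∣ d ∨ (d : ℝ) < √15 * m ∨ √15 * (2 * m + 1) ≤ 2 * d + 3
  · exact Pool.Agent.TH469.SX.dich_three (b := 5) slp15 K15_lt
      (Pool.Agent.TH469.SX.dich5 m d hold)
  push Not at hold
  obtain ⟨h3, h4, h5⟩ := hold
  have hs := sq15
  have hs0 : 0 ≤ √(15 : ℝ) := Real.sqrt_nonneg _
  have hG2 : (d : ℝ) - √15 * m < 3 * (√15 - 3) / (√15 + 3) := by
    by_contra hcon
    push Not at hcon
    exact hG ⟨h3, hcon, by linarith⟩
  obtain ⟨x, rfl⟩ := h3
  rw [lt_div_iff₀ (by positivity)] at hG2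
  have hK3 : (3 : ℝ) < K15 := by have := slp15.hMK; push_cast at this; exact this
  push_cast at h4 hG2
  have e1 : ee K15 m x 0 = (3 + √15) / 6 * (3 * x - √15 * m) := by
    unfold ee K15
    push_cast
    linear_combination ((m : ℝ) / 6) * hs
  have h0 : 0 ≤ ee K15 m x 0 := by
    rw [e1]
    apply mul_nonneg (by positivity)
    linarith
  have h1 : ee K15 m x 0 < K15 - (3 : ℕ) := by
    rw [e1]
    unfold K15
    push_cast
    linarith
  rcases blk_dich hT2 le_rfl slp15 (m := m) (x := x) h0 h1 with h7 | h7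
  · left
    have e : (Fin 5 ⊕ Fin 5) ⊕ Fin 5 ≃ Fin 15 := by
      apply Fintype.equivOfCardEq
      simp
    have hw : ∀ i, (Sum.elim (Sum.elim (fun _ : Fin 5 => m) fun _ : Fin 5 => m)
        fun _ : Fin 5 => m) i = m := by
      rintro ((i | i) | i) <;> rfl
    exact Emp_emb (g := e) e.injective (fun i => by rw [hw]) (Emp_TZ3' hK3 K15_lt h7)
  · exact Pool.Agent.TH469.SX.dich_three (b := 5) slp15 K15_lt (Or.inr h7)

/-- the expected dimension at 11 and at 15 general points -/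
theorem uniform (hT2 : S_TEST2) (n : ℕ) (hn : n = 11 ∨ n = 15) (m : ℕ) :
    ∃ F : MvPolynomial (Fin n × Fin 2) ℚ, F ≠ 0 ∧ ∀ {L : Type} [Field L] [CharZero L]
      (P : Fin n → Fin 2 → L), MvPolynomial.aeval (fun ij : Fin n × Fin 2 => P ij.1 ij.2) F ≠ 0 →
      ∀ d : ℕ, ¬ (3 ∣ d ∧ 3 * (√(n : ℝ) - 3) / (√(n : ℝ) + 3) ≤ (d : ℝ) - √(n : ℝ) * m ∧
        (d : ℝ) - √(n : ℝ) * m < (√(n : ℝ) - 3) / 2) → ExpDim L (fun _ => m) P d := by
  rcases hn with rfl | rfl
  · exact Pool.Agent.TH864.SX.expDim_of_or' fun d hd => dich11 hT2 m d (by push_cast at hd; exact hd)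
  · exact Pool.Agent.TH864.SX.expDim_of_or' fun d hd => dich15 hT2 m d (by push_cast at hd; exact hd)

end Pool.Agent.N388.EFW
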